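import Pool.Agent.H734_ncv.Main

/-!
# The noncommutative variational Hodge conjecture for `D(A) ⊠_B 𝒟`, for abelian schemes `A` which move
# relative to the category `𝒟`

Let `B` be the universal covering of the base (or the base), `Y → B` ANY family of smooth proper
varieties and `𝒟 ⊂ D_perf(Y)` ANY `B`-linear admissible subcategory. The rational topological K-theory
(the rational cohomology) of the fibres of `Y` is trivialized, it is `ℚ ^ v` with the Hodge operators
`(Y b).z` (multiplication by `p - q` on the classes of type `(p, q)`), and `𝒟` is given by the projector
`P` of this space defined by the projection functor onto `𝒟`: it is flat, and commutes with all Hodge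
operators (`IsFlatProjector`). So the flat classes of `𝒟` are the elements of the image of `P`, and a
flat class is a Hodge class of `𝒟_b` (`IsHodgeD`) if it is killed by the Hodge operator, that is, if its
complexification is in `HH_0(𝒟_b)`.

Let `A → B` be a fibre product (repetitions allowed) of families `A i` of principally polarized abelian
varieties with the period matrices `Z i b`. We assume that `A` moves relative to `𝒟`
(`MovesRelativeTo`): through each point of `B` there is a connected complex manifold along which the
Hodge structure of `K^top(𝒟_b)` is constant and each `A i` is moving. This means that one of
its members is simple and one of its ranks (of `γ - 1` for a monodromy operator `γ` with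
`(γ - 1) ^ 2 = 0`, of a derivative of the period matrix, or of the difference of two period matrices) is
odd, or the centre of the endomorphism algebra is totally real and one of the ranks is two or there are
more than `(g - 1) ^ 2 / 8` moduli. The Hodge structure of the ambient family `Y` may vary along this
manifold in an arbitrary way (and may be correlated with the one of `A`); only the Hodge structure of
the category `𝒟_b` has to be constant. For instance `𝒟_b` has a full exceptional collection, or is an
Enriques category, the derived category of a fixed variety or a fixed noncommutative K3 surface, or
`𝒟` is the component of `D_perf(Y)` of a family `Y → B` (e.g. a family of blow ups of one variety in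
varying centres) which does not vary.

Then

* (`HodgeSectionsAreProducts`) each flat class of `D(A) ⊠_B 𝒟` which is a Hodge class in all fibres is a
  sum of products `f ⊗ x`, where `f` is flat and on each `A_b` a combination of products of divisor
  classes, and `x` is a flat class of `𝒟` and a Hodge class of all `𝒟_b`;
* (`SectionsAlgebraic`) **if the fibres `𝒟_b` satisfy the noncommutative Hodge conjecture, then all
  these classes are algebraic in all fibres.** So the noncommutative variational Hodge conjecture is
  true for `D(A) ⊠_B 𝒟`, for the abelian schemes `A` moving relative to `𝒟`, if the noncommutative
  Hodge conjecture is known for the fibres `𝒟_b`: for instance for the categories `𝒟` with a relative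
  full exceptional collection, the Enriques categories, the Kuznetsov components of families of cubic
  fourfolds or Gushel-Mukai varieties of constant period;
* (`VariationalEquiv`) **for an arbitrary `𝒟`, the noncommutative variational Hodge conjecture for
  `D(A) ⊠_B 𝒟` is equivalent to the noncommutative variational Hodge conjecture for `𝒟`.**

Flat classes that are algebraic in one fibre are Hodge classes in all fibres (theorem of the fixed part;
this is listed as known in the problem), so the hypothesis that the classes are Hodge classes in all
fibres in the definition `Variational` is no restriction.

Here `D(A) ⊠_B 𝒟` is the admissible subcategory of `D_perf(A ×_B Y)` which is the base change of `𝒟`. Of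
the classes of objects only three properties are used (the fields of `ObjectClasses`).

The proof. The case `𝒟 = D_perf(Y)` is the starting result `MP_e9c0f3_ag.TimesAnyVariety` on the
variational Hodge conjecture (by earlier members of the team), whose proof applies to arbitrary
families of Hodge structures; here it is applied to the family of Hodge structures of `𝒟`, which is
a direct summand of the family of the cohomology of `Y`.
-/

set_option autoImplicit false

namespace Pool.Agent.Results.MP_298761_ag.BoxWithAbelianSchemes

open Pool.Agent.TH131.GHC Pool.Agent.TH504.VY Pool.Agent.H734_ncv

/-- **The noncommutative variational Hodge conjecture for `D(A) ⊠_B 𝒟` is true if the fibres of `𝒟`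
satisfy the noncommutative Hodge conjecture, and for all `𝒟` it is equivalent to the noncommutative
variational Hodge conjecture for `𝒟`**, for the fibre products `A = A (c 0) × ... × A (c (n - 1))` of
families of abelian varieties which move relative to `𝒟`; and all flat Hodge classes come from
products. -/
theorem result {ι B : Type} [Nonempty B] {g : ι → ℕ}
    (Z : ∀ i, B → Matrix (Fin (g i)) (Fin (g i)) ℂ) {n : ℕ} (c : Fin n → ι) {v : ℕ}
    (Y : B → Coh v) (P : Matrix (Fin v) (Fin v) ℚ) (hP : IsFlatProjector Y P)
    (hmov : MovesRelativeTo Z Y P) :
    HodgeSectionsAreProducts (fibreProduct Z c) Y P ∧ SectionsAlgebraic (fibreProduct Z c) Y P ∧
      VariationalEquiv (fibreProduct Z c) Y P :=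
  main Z c Y P hP hmov

end Pool.Agent.Results.MP_298761_ag.BoxWithAbelianSchemes
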